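import Pool.Agent.H.MP_bb4c62_an.helper6.NDefs

/-!
A mixed (cone / dual cone) pattern of the two conjugate-linear models is impossible.
-/

namespace Pool.Agent.H.MP_bb4c62_an.helper6.NL

open Complex Metric Set Filter Topology
open Pool.Agent.H.MP_bb4c62_an.helper6.Perturb
open Pool.Agent.H.MP_bb4c62_an.helper6.Gadgets

variable {X : Type*} [NormedAddCommGroup X] [NormedSpace ℂ X]
variable {Y : Type*} [NormedAddCommGroup Y] [NormedSpace ℂ Y]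

theorem mixed_false {E E' : Type*} [AddCommGroup E] [Module ℂ E] [AddCommGroup E'] [Module ℂ E']
    (P : E →ₗ[ℂ] E' →ₗ[ℂ] ℂ) (B B' : E → E' → (Y →L[ℂ] Y))
    (c : ℂ) (τ : ℂ ≃+* ℂ) (S : E ≃+ Y) (Q : E' → (Y →L[ℂ] ℂ)) (hc : c ≠ 0)
    (hQ : ∀ x f, Q f (S x) = τ (P x f))
    (hB : ∀ x f, P x f = 0 → B x f = c • ten (S x) (Q f))
    (c' : ℂ) (τ' : ℂ ≃+* ℂ) (S' : E' ≃+ Y) (Q' : E → (Y →L[ℂ] ℂ)) (hc' : c' ≠ 0)
    (hS' : ∀ (a : ℂ) f, S' (a • f) = τ' a • S' f)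
    (hB' : ∀ x f, P x f = 0 → B' x f = c' • ten (S' f) (Q' x))
    (x0 : E) (hx0 : x0 ≠ 0)
    (hL : ∀ h, P x0 h = 0 → B' x0 h = B x0 h)
    (sa : ∀ g : E', g ≠ 0 → ∃ z, P z g = 1)
    (sd : ∃ h1 h2 : E', P x0 h1 = 0 ∧ P x0 h2 = 0 ∧ LinearIndependent ℂ ![h1, h2]) : False := by
  have hSx : S x0 ≠ 0 := fun h => hx0 (by
    have := congrArg S.symm h
    simpa using this)
  have key : ∀ h, P x0 h = 0 → h ≠ 0 → ∃ r : ℂ, r ≠ 0 ∧ S' h = r • S x0 := by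
    intro h hP hh
    obtain ⟨z, hz⟩ := sa h hh
    have e4 : (c • ten (S x0) (Q h)) (S z) = (c' • ten (S' h) (Q' x0)) (S z) := by
      rw [← hB x0 h hP, ← hB' x0 h hP, hL h hP]
    have hq : Q h (S z) = 1 := by rw [hQ, hz, map_one]
    have e5 : c • S x0 = (c' * Q' x0 (S z)) • S' h := by
      have e6 : c • (Q h (S z)) • S x0 = c' • (Q' x0 (S z)) • S' h := by
        simpa only [_root_.smul_apply, ContinuousLinearMap.smulRight_apply] using e4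
      rwa [hq, one_smul, smul_smul] at e6
    have hk : c' * Q' x0 (S z) ≠ 0 := by
      intro h0
      rw [h0, zero_smul] at e5
      exact (smul_ne_zero hc hSx) e5
    refine ⟨(c' * Q' x0 (S z))⁻¹ * c, mul_ne_zero (inv_ne_zero hk) hc, ?_⟩
    rw [mul_smul, e5, inv_smul_smul₀ hk]
  obtain ⟨h1, h2, hP1, hP2, hli⟩ := sd
  have hn1 : h1 ≠ 0 := hli.ne_zero 0
  have hn2 : h2 ≠ 0 := hli.ne_zero 1
  obtain ⟨r1, hr1, e1⟩ := key h1 hP1 hn1
  obtain ⟨r2, hr2, e2⟩ := key h2 hP2 hn2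
  have h0 : S' (τ'.symm r2 • h1 + (-(τ'.symm r1)) • h2) = 0 := by
    rw [map_add, hS', hS', map_neg, RingEquiv.apply_symm_apply, RingEquiv.apply_symm_apply,
      e1, e2, smul_smul, smul_smul, ← add_smul]
    have : r2 * r1 + -r1 * r2 = 0 := by ring
    rw [this, zero_smul]
  have h3 : τ'.symm r2 • h1 + (-(τ'.symm r1)) • h2 = 0 := by
    have := congrArg S'.symm h0
    simpa using this
  have h4 := (LinearIndependent.pair_iff.1 hli _ _ h3).1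
  exact hr2 (by simpa using h4)

end Pool.Agent.H.MP_bb4c62_an.helper6.NL
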